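import Pool.Agent.Y714.KE.BasA
import Pool.Agent.Y421.KF.Bas

set_option autoImplicit false
set_option linter.unusedSectionVars false

/-! Project KE (helper714): primitive vectors and bases (`bas`, `sup`, `supi`). -/

namespace Pool.Agent.Y849.KE

open NumberField FractionalIdeal Module
open scoped nonZeroDivisors

open Pool.Agent.Y714.KF (FI sp ct nm ct_le sp_le intCast_mul_mem sp_mul)
open Pool.Agent.Y421.KF (cop)
open Pool.Agent.Y714.KE

variable {s : Type} [Fintype s] [DecidableEq s] {K : s → Type} [∀ i, Field (K i)]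
  [∀ i, NumberField (K i)]

omit [Fintype s] [DecidableEq s] [∀ i, NumberField (K i)] in
theorem zs (m : ℤ) (x : Al K) (c : s) : (m • x) c = (m : K c) * x c := by
  rw [Pi.smul_apply, zsmul_eq_mul]

omit [Fintype s] [DecidableEq s] in
theorem qs (m : ℚ) (x : Al K) (c : s) : (m • x) c = (m : K c) * x c := by
  rw [Pi.smul_apply, Rat.smul_def]

theorem bas : S_BAS K := by
  intro p hp m I P hP hI ⟨x, hx, hx', hn⟩
  obtain ⟨i, j, rfl⟩ := mem_LT.1 hx
  obtain ⟨hI1, hI2⟩ := cn_le.1 hI
  by_cases hi : (p : ℤ) ∣ i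
  · have hj : ¬ (p : ℤ) ∣ j := by
      intro hj
      obtain ⟨i', rfl⟩ := hi
      obtain ⟨j', rfl⟩ := hj
      exact hx' ⟨i' • P.1 + j' • P.2, mem_LT.2 ⟨i', j', rfl⟩, by
        rw [smul_add, smul_smul, smul_smul]⟩
    obtain ⟨i', rfl⟩ := hi
    obtain ⟨v, w, hvw⟩ := cop hp j hj
    refine ⟨P.2, P.1, ?_, ?_⟩
    · have := LT_glz 0 1 1 0 (Or.inr (by norm_num)) P
      rw [← this]
      congr 1
      simp [glz]
    · rw [← hn]
      congr 1
      funext c
      refine (Pool.Agent.Y421.KF.add_eq j v (y := (i' : K c) * P.1 c)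
        (z := (w : K c) * P.2 c - ((v * i' : ℤ) : K c) * P.1 c)
        (intCast_mul_mem _ (hI1 c)) ?_ ?_ ?_).symm
      · exact ((I c : FI (K c)) : Submodule (𝓞 (K c)) (K c)).sub_mem (intCast_mul_mem _ (hI2 c))
          (intCast_mul_mem _ (hI1 c))
      · simp only [Pi.add_apply, zs]
        push_cast; ring
      · have : (v : K c) * j + w * p = 1 := by exact_mod_cast congrArg (Int.cast : ℤ → K c) hvw
        simp only [Pi.add_apply, zs]
        push_cast
        linear_combination (-P.2 c) * this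
  · obtain ⟨v, w, hvw⟩ := cop hp i hi
    refine ⟨P.1 + (j * v) • P.2, P.2, ?_, ?_⟩
    · have := LT_glz 1 (j * v) 0 1 (Or.inl (by ring)) P
      rw [← this]
      congr 1
      simp [glz]
    · rw [← hn]
      congr 1
      funext c
      have e1 : (v : K c) * i + w * p = 1 := by exact_mod_cast congrArg (Int.cast : ℤ → K c) hvw
      refine (Pool.Agent.Y421.KF.add_eq i v (y := ((j * w : ℤ) : K c) * P.2 c)
        (z := (w : K c) * P.1 c)
        (intCast_mul_mem _ (hI2 c)) (intCast_mul_mem _ (hI1 c)) ?_ ?_).symm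
      · simp only [Pi.add_apply, zs]
        push_cast
        linear_combination (-(j : K c) * P.2 c) * e1
      · simp only [Pi.add_apply, zs]
        push_cast
        linear_combination (-P.1 c) * e1

theorem LT_smul_congr {P Q : Al K × Al K} (x : ℚ) (h : LT P = LT Q) :
    LT (x • P) = LT (x • Q) := by
  have key : ∀ (R : Al K × Al K) (y : Al K), y ∈ LT (x • R) ↔ ∃ z ∈ LT R, x • z = y := by
    intro R y
    rw [mem_LT]
    constructor
    · rintro ⟨a, b, rfl⟩
      refine ⟨a • R.1 + b • R.2, mem_LT.2 ⟨a, b, rfl⟩, ?_⟩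
      rw [smul_add, smul_comm x a, smul_comm x b]
      rfl
    · rintro ⟨z, hz, rfl⟩
      obtain ⟨a, b, rfl⟩ := mem_LT.1 hz
      refine ⟨a, b, ?_⟩
      rw [smul_add, smul_comm x a, smul_comm x b]
      rfl
  ext y
  rw [key, key, h]

theorem IN_mul {p : ℕ} (hp : p.Prime) {x y : Al K} (h : IN (x, y)) : IN (x, (p : ℤ) • y) := by
  have hpq : (p : ℚ) ≠ 0 := by exact_mod_cast hp.ne_zero
  intro a b hab
  have := h a (b * p) (by
    rw [← hab]
    funext c
    simp only [Pi.add_apply, zs, qs]
    push_cast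
    ring)
  exact ⟨this.1, (mul_eq_zero.1 this.2).resolve_right hpq⟩

theorem sup_aux {p : ℕ} (hp : p.Prime) {x y : Al K} {A : Al K × Al K} (hA : IN A)
    (h : IN (x, y)) (hL : LT A = LT (x, (p : ℤ) • y)) :
    ∃ o : Option (Fin p), LT (x, y) = LT ((p : ℚ)⁻¹ • nb p o A) := by
  have hpK : ∀ c, (p : K c) ≠ 0 := fun c => by exact_mod_cast hp.ne_zero
  have hpq : (p : ℚ) ≠ 0 := by exact_mod_cast hp.ne_zero
  have h1 := IN_mul hp h
  obtain ⟨m, n, k, l, hdet, he⟩ := LT_eq hA h1 hL
  have hx : ∀ c, x c = m * A.1 c + n * A.2 c := fun c => by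
    have := congrFun (congrArg Prod.fst he) c
    simpa [glz] using this
  have hy : ∀ c, (p : K c) * y c = k * A.1 c + l * A.2 c := fun c => by
    have := congrFun (congrArg Prod.snd he) c
    simpa [glz] using this
  have hxy : LT (x, y) = LT ((p : ℚ)⁻¹ • ((p : ℤ) • x, (p : ℤ) • y)) := by
    congr 1
    refine Prod.ext ?_ ?_
    · funext c
      simp [Rat.smul_def, hpK c]
    · funext c
      simp [Rat.smul_def, hpK c]
  rw [hxy]
  by_cases hk : (p : ℤ) ∣ k
  · obtain ⟨k', rfl⟩ := hk
    refine ⟨none, LT_smul_congr _ ?_⟩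
    rw [← LT_glz (p * n) m l k' (by
      rcases hdet with h | h
      · right; linarith
      · left; linarith) (nb p none A)]
    congr 1
    refine Prod.ext ?_ ?_
    · funext c
      simp only [glz, nb, Pi.add_apply, zs]; rw [hx c]; push_cast; ring
    · funext c
      simp only [glz, nb, Pi.add_apply, zs]
      have := hy c
      push_cast at this ⊢
      rw [this]; ring
  · obtain ⟨v, w, hvw⟩ := cop hp k hk
    have hp0 : (0 : ℤ) < p := by exact_mod_cast hp.pos
    set r : ℤ := (l * v) % p with hr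
    have hr0 : 0 ≤ r := Int.emod_nonneg _ hp0.ne'
    have hrp : r < p := Int.emod_lt_of_pos _ hp0
    obtain ⟨t, ht⟩ : ∃ t, l * v = r + p * t :=
      ⟨l * v / p, by rw [hr]; exact (Int.emod_add_mul_ediv _ _).symm⟩
    have hrn : ((r.toNat : ℕ) : ℤ) = r := Int.toNat_of_nonneg hr0
    have hlt : r.toNat < p := by
      have : ((r.toNat : ℕ) : ℤ) = r := Int.toNat_of_nonneg hr0
      omega
    obtain ⟨s, hs⟩ : ∃ s : ℤ, l = k * r + p * s := ⟨k * t + l * w, by
      have : l = l * (v * k + w * p) := by rw [hvw, mul_one]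
      calc l = l * (v * k + w * p) := this
        _ = k * (l * v) + p * (l * w) := by ring
        _ = _ := by rw [ht]; ring⟩
    refine ⟨some ⟨r.toNat, hlt⟩, LT_smul_congr _ ?_⟩
    rw [← LT_glz (p * m) (n - m * r) k s (by
      rw [hs] at hdet
      rcases hdet with h | h
      · left; linarith
      · right; linarith) (nb p (some ⟨r.toNat, hlt⟩) A)]
    congr 1
    refine Prod.ext ?_ ?_
    · funext c
      simp only [glz, nb, hrn, Pi.add_apply, zs]
      rw [hx c]; push_cast; ring
    · funext c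
      have hsK : (l : K c) = k * r + p * s := by exact_mod_cast congrArg (Int.cast : ℤ → K c) hs
      simp only [glz, nb, hrn, Pi.add_apply, zs]
      have := hy c
      push_cast at this ⊢
      rw [this, hsK]; ring

theorem sup : S_SUP K := by
  intro p hp M₁
  set S := {M : Submodule ℤ (Al K) | ∃ x y : Al K, IN (x, y) ∧ M = LT (x, y) ∧
    LT (x, (p : ℤ) • y) = M₁} with hS
  rcases S.eq_empty_or_nonempty with h0 | ⟨M, x0, y0, hi0, -, hM0⟩
  · rw [h0]
    exact ⟨Set.finite_empty, by simp⟩
  have hA : IN (x0, (p : ℤ) • y0) := IN_mul hp hi0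
  have hsub : S ⊆ Set.range fun o : Option (Fin p) =>
      LT ((p : ℚ)⁻¹ • nb p o (x0, (p : ℤ) • y0)) := by
    rintro N ⟨x, y, hi, rfl, hN⟩
    obtain ⟨o, ho⟩ := sup_aux hp hA hi (hM0.trans hN.symm)
    exact ⟨o, ho.symm⟩
  have hfin := Set.finite_range fun o : Option (Fin p) =>
    LT ((p : ℚ)⁻¹ • nb p o (x0, (p : ℤ) • y0))
  refine ⟨hfin.subset hsub, (Set.ncard_le_ncard hsub hfin).trans ?_⟩
  rw [← Set.image_univ]
  refine (Set.ncard_image_le Set.finite_univ).trans ?_
  rw [Set.ncard_univ, Nat.card_eq_fintype_card, Fintype.card_option, Fintype.card_fin]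

theorem supi : S_SUPI K := by
  intro p hp I x y x' y' h h' hI hI' hL hne
  have hpK : ∀ c, (p : K c) ≠ 0 := fun c => by exact_mod_cast hp.ne_zero
  obtain ⟨m, n, k, l, hdet, he⟩ := LT_eq (IN_mul hp h) (IN_mul hp h') hL
  have hx : ∀ c, x' c = m * x c + n * ((p : K c) * y c) := fun c => by
    have := congrFun (congrArg Prod.fst he) c
    simpa [glz] using this
  have hy : ∀ c, (p : K c) * y' c = k * x c + l * ((p : K c) * y c) := fun c => by
    have := congrFun (congrArg Prod.snd he) c
    simpa [glz] using this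
  obtain ⟨h1, h2⟩ := cn_le.1 hI
  obtain ⟨h1', h2'⟩ := cn_le.1 hI'
  by_cases hk : (p : ℤ) ∣ k
  · obtain ⟨k', rfl⟩ := hk
    have hy' : ∀ c, y' c = k' * x c + l * y c := by
      intro c
      apply mul_left_cancel₀ (hpK c)
      rw [hy c]; push_cast; ring
    have := LT_glz m (n * p) k' l (by
      rcases hdet with h | h
      · left; linarith
      · right; linarith) (x, y)
    rw [← this]
    congr 1
    refine Prod.ext ?_ ?_
    · funext c
      simp only [glz, Pi.add_apply, zs]; rw [hx c]; push_cast; ring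
    · funext c
      simp only [glz, Pi.add_apply, zs]; rw [hy' c]
  · exfalso
    obtain ⟨u, v, huv⟩ := cop hp k hk
    obtain ⟨c, hc⟩ := hne
    have e1 : (u : K c) * k + v * p = 1 := by exact_mod_cast congrArg (Int.cast : ℤ → K c) huv
    apply hc
    have hz : x c = (p : K c) * (u * (y' c - l * y c) + v * x c) := by
      linear_combination (-x c) * e1 - (u : K c) * hy c
    have hzI : (u : K c) * (y' c - l * y c) + v * x c ∈ (I c : FI (K c)) := by
      refine ((I c : FI (K c)) : Submodule (𝓞 (K c)) (K c)).add_mem (intCast_mul_mem u ?_)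
        (intCast_mul_mem v (h1 c))
      exact ((I c : FI (K c)) : Submodule (𝓞 (K c)) (K c)).sub_mem (h2' c)
        (intCast_mul_mem l (h2 c))
    have hle : sp (x c) ≤ sp (p : K c) * (I c : FI (K c)) := by
      conv_lhs => rw [hz]
      rw [sp_mul]
      gcongr
      exact sp_le.2 hzI
    rw [← sup_eq_add]
    exact sup_eq_left.2 hle

end Pool.Agent.Y849.KE
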