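import Pool.Agent.Y714.KE.BasA
import Pool.Agent.Y319.KF.Loc

set_option autoImplicit false
set_option linter.unusedSectionVars false

/-! Project KE (helper714), job KE-LOC: the local conditions together say reduced. -/

namespace Pool.Agent.Y849.KE

open NumberField FractionalIdeal Module
open scoped nonZeroDivisors

open Pool.Agent.Y714.KF (FI sp ct nm ct_le sp_le exists_ideal inv_mul_le_one sp_natCast_le_one)
open Pool.Agent.Y714.KE

variable {s : Type} [Fintype s] [DecidableEq s] {K : s → Type} [∀ i, Field (K i)]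
  [∀ i, NumberField (K i)]

theorem loc : S_LOC K := by
  intro _ I P hP hne hI
  have hI0 : ∀ i, (I i : FI (K i)) ≠ 0 := fun i => (I i).ne_zero
  have hc0 : ∀ i, cn P i ≠ 0 := cn_ne hne
  constructor
  · intro h
    have hct : cn P = cf I := by
      funext i
      by_contra hne
      obtain ⟨L, hL⟩ := exists_ideal (inv_mul_le_one (hI0 i) (hI i))
      have hcL : cn P i = (L : FI (K i)) * I i := by
        rw [hL, mul_comm (I i : FI (K i))⁻¹, mul_assoc, inv_mul_cancel₀ (hI0 i), mul_one]
      have hLt : L ≠ ⊤ := by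
        rintro rfl
        apply hne
        rw [hcL, coeIdeal_top, one_mul]
        rfl
      have hL0 : L ≠ ⊥ := by
        rintro rfl
        apply hc0 i
        rw [hcL, coeIdeal_bot, zero_mul]
      obtain ⟨q, hqm, hLq⟩ := Ideal.exists_le_maximal L hLt
      obtain ⟨p, hp, hpq⟩ := Pool.Agent.Y319.KF.exists_prime_mem hqm.isPrime
        (fun h0 => hL0 (le_bot_iff.1 (h0 ▸ hLq)))
      refine (h p hp).1 ⟨i, q, hqm.isPrime, hpq, fun x hx => ?_⟩
      have h1 : x i ∈ cn P i := LT_mem (fun _ => le_rfl) hx i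
      rw [hcL] at h1
      have h2 : (L : FI (K i)) * I i ≤ (q : FI (K i)) * I i := by
        have := coeIdeal_le_coeIdeal (K i) |>.2 hLq
        gcongr
      exact h2 h1
    refine ⟨hct, ?_⟩
    intro p hp x hx hx'
    have h1 : ∀ i, sp (p : K i) * cn P i ≤ sp (p : K i) * cn P i + sp (x i) := by
      intro i
      rw [← sup_eq_add]; exact le_sup_left
    have h2 : ∀ i, sp (p : K i) * cn P i + sp (x i) ≤ cn P i := by
      intro i
      rw [← sup_eq_add]
      refine sup_le ?_ (sp_le.2 (LT_mem (fun _ => le_rfl) hx i))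
      calc sp (p : K i) * cn P i ≤ 1 * cn P i := by
            gcongr; exact sp_natCast_le_one p
        _ = cn P i := one_mul _
    obtain ⟨m, hm, hm'⟩ := exists_powA hp hc0 h1 h2
    have h3 : ¬ dg K ≤ 2 * m := by
      intro h3
      refine (h p hp).2 m hm h3 ⟨x, hx, hx', ?_⟩
      rw [← hct]
      exact hm'
    rw [hm', mul_pow, ← pow_mul]
    have h4 := nA_pos hc0
    have h5 : (1 : ℚ) < p := by exact_mod_cast hp.one_lt
    have h6 : (p : ℚ) ^ (m * 2) < (p : ℚ) ^ dg K := pow_lt_pow_right₀ h5 (by omega)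
    have h7 : 0 < nA (cn P) ^ 2 := by positivity
    exact mul_lt_mul_of_pos_right h6 h7
  · rintro ⟨hct, hred⟩ p hp
    refine ⟨?_, ?_⟩
    · rintro ⟨i, q, hq, -, hall⟩
      have h1 : cn P i ≤ (q : FI (K i)) * I i :=
        ct_le.2 ⟨hall _ (fst_mem_LT P), hall _ (snd_mem_LT P)⟩
      rw [hct] at h1
      have h2 : (1 : FI (K i)) ≤ (q : FI (K i)) := by
        calc (1 : FI (K i)) = I i * (I i : FI (K i))⁻¹ := (mul_inv_cancel₀ (hI0 i)).symm
          _ ≤ ((q : FI (K i)) * I i) * (I i : FI (K i))⁻¹ := by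
              have h1' : (I i : FI (K i)) ≤ (q : FI (K i)) * I i := h1
              gcongr
          _ = q := by rw [mul_assoc, mul_inv_cancel₀ (hI0 i), mul_one]
      have h3 : (⊤ : Ideal (𝓞 (K i))) ≤ q := by
        rw [← coeIdeal_le_coeIdeal (K i), coeIdeal_top]
        exact h2
      exact hq.ne_top (top_le_iff.1 h3)
    · rintro m - hnm ⟨x, hx, hx', hxm⟩
      have h1 := hred p hp x hx hx'
      rw [hct, hxm, mul_pow, ← pow_mul] at h1
      have h4 : 0 < nA (cf I) := nA_pos hI0
      have h5 : (1 : ℚ) < p := by exact_mod_cast hp.one_lt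
      have h6 : (p : ℚ) ^ dg K ≤ (p : ℚ) ^ (m * 2) := pow_le_pow_right₀ h5.le (by omega)
      have h7 : 0 < nA (cf I) ^ 2 := by positivity
      exact absurd h1 (not_lt.2 (mul_le_mul_of_nonneg_right h6 h7.le))

end Pool.Agent.Y849.KE
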