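import Pool.Agent.Y714.KE.Glue

set_option autoImplicit false
set_option linter.unusedSectionVars false

/-! Project KE (helper714), job KE-RBM: lattices and points of the region in good cells. -/

namespace Pool.Agent.Y849.KE

open NumberField FractionalIdeal Module MeasureTheory Finset
open scoped nonZeroDivisors

open Pool.Agent.Y714.KE

/-- the points with scaled coordinates in a bounded set are finitely many -/
theorem fin_pts {ι : Type} [Fintype ι] {D : Set (ι → ℝ)} (hD : Bornology.IsBounded D)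
    {Y : ι → ℝ} (hY : ∀ i, 0 < Y i) : {z : ι → ℤ | (fun i => (z i : ℝ) / Y i) ∈ D}.Finite := by
  classical
  obtain ⟨R, hR⟩ := hD.subset_closedBall 0
  refine (Set.finite_Icc (fun i => ⌊-(R * Y i)⌋) (fun i => ⌈R * Y i⌉)).subset ?_
  intro z hz
  have h1 := hR hz
  rw [mem_closedBall_zero_iff] at h1
  have h2 : ∀ i, |(z i : ℝ)| ≤ R * Y i := by
    intro i
    have h3 := (norm_le_pi_norm (fun i => (z i : ℝ) / Y i) i).trans h1
    rw [Real.norm_eq_abs, abs_div, abs_of_pos (hY i), div_le_iff₀ (hY i)] at h3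
    exact h3
  rw [Set.mem_Icc, Pi.le_def, Pi.le_def]
  constructor
  · intro i
    have h3 := (abs_le.1 (h2 i)).1
    exact_mod_cast (Int.floor_le _).trans h3
  · intro i
    have h3 := (abs_le.1 (h2 i)).2
    exact_mod_cast h3.trans (Int.le_ceil _)

/-- few points near a closed null set -/
theorem few_pts (h : S_LPC) {ι : Type} [Fintype ι] {A : Set (ι → ℝ)}
    (hA : Bornology.IsBounded A) (hc : IsClosed A) (h0 : volume A = 0) {η : ℝ} (hη : 0 < η) :
    ∃ L : ℝ, 0 < L ∧ ∀ Y : ι → ℝ, (∀ i, L ≤ Y i) →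
      ({z : ι → ℤ | (fun i => (z i : ℝ) / Y i) ∈ A}.ncard : ℝ) ≤ η * ∏ i, Y i := by
  obtain ⟨L, hL, h1⟩ := h ι A hA hc.measurableSet
    (measure_mono_null hc.frontier_subset h0) 1 one_pos Set.univ η hη
  refine ⟨L, hL, fun Y hY => ?_⟩
  have h2 := h1 Y hY
  have h3 : 0 < ∏ i, Y i := prod_pos fun i _ => hL.trans_le (hY i)
  have h4 : volume.real A = 0 := by
    rw [measureReal_def, h0]
    simp
  rw [h4, zero_mul, zero_div, sub_zero, abs_div, abs_of_pos h3, div_le_iff₀ h3] at h2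
  simp only [Set.mem_univ, true_and] at h2
  exact (le_abs_self _).trans h2

section

variable {s : Type} [Fintype s] [DecidableEq s] {K : s → Type} [∀ i, Field (K i)]
  [∀ i, NumberField (K i)]

theorem prod_exp (y : s → ℝ) : ∏ k : Ix K ⊕ Ix K, Real.exp (y (cm k)) = tt (K := K) y := by
  rw [← Real.exp_sum, tt]
  congr 1
  rw [Fintype.sum_sum_type]
  simp only [cm, Sum.elim_inl, Sum.elim_inr]
  rw [Fintype.sum_sigma]
  simp only [sum_const, card_univ, Fintype.card_fin, nsmul_eq_mul]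
  ring

theorem tt_pos (y : s → ℝ) : 0 < tt (K := K) y := Real.exp_pos _

/-- the bound of `S_T1` when all terms are at most `ρ` -/
theorem t1_bound {y : s → ℝ} {ρ d : ℝ} (hd : 0 ≤ d) (h1 : ρ ^ 2 ≤ d)
    (h2 : ∀ j, finrank ℚ (K j) = 1 → ρ * Real.exp (-(y j)) ≤ d) :
    ρ ^ 2 + ∑ j ∈ univ.filter (fun j => finrank ℚ (K j) = 1),
        min 1 (ρ * Real.exp (-(y j))) ≤ (1 + Fintype.card s) * d := by
  have h3 : ∑ j ∈ univ.filter (fun j => finrank ℚ (K j) = 1),
        min 1 (ρ * Real.exp (-(y j))) ≤ ∑ j ∈ univ.filter (fun j => finrank ℚ (K j) = 1), d := by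
    refine sum_le_sum fun j hj => ?_
    rw [mem_filter] at hj
    exact (min_le_right _ _).trans (h2 j hj.2)
  have h4 : ∑ j ∈ univ.filter (fun j => finrank ℚ (K j) = 1), d ≤ Fintype.card s * d := by
    rw [sum_const, nsmul_eq_mul]
    refine mul_le_mul_of_nonneg_right ?_ hd
    exact_mod_cast card_le_univ _
  linarith

theorem rbm (h1 : S_T1 K) (h2 : S_RBC K) (h3 : S_OPB K) (h4 : S_LPC) : S_RBM K := by
  intro hodd hn I b hb κ i₀ hnull η hη
  obtain ⟨C, hC, hT⟩ := h1 hodd hn κ i₀ I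
  set r : ℝ := (Fintype.card s : ℝ) with hr
  have hr0 : 0 ≤ r := Nat.cast_nonneg _
  refine ⟨min 1 (η / (4 * C * (1 + r))), by positivity, fun δ hδ hδ1 => ?_⟩
  have hδ2 : δ ≤ 1 := hδ1.trans (min_le_left _ _)
  have hδ3 : δ ≤ η / (4 * C * (1 + r)) := hδ1.trans (min_le_right _ _)
  have hδ4 : 2 * (C * ((1 + r) * δ)) ≤ η / 2 := by
    rw [le_div_iff₀ (by positivity)] at hδ3
    linarith
  obtain ⟨hop, hbd⟩ := h3 hodd hn b κ i₀ δ hδ
  have hcl : IsClosed (closure (Dc b κ i₀ δ) \ Dm b κ i₀ δ) := isClosed_closure.sdiff hop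
  have hbd' : Bornology.IsBounded (closure (Dc b κ i₀ δ) \ Dm b κ i₀ δ) :=
    hbd.closure.subset Set.sdiff_subset
  obtain ⟨L, hL, hfew⟩ := few_pts h4 hbd' hcl (hnull δ hδ) (by positivity : 0 < η / 4)
  refine ⟨max 1 L, by positivity, fun y hy Pr => ?_⟩
  have hy1 : ∀ i, 1 ≤ Real.exp (y i) := fun i => (le_max_left _ _).trans (hy i)
  have hyL : ∀ i, L ≤ Real.exp (y i) := fun i => (le_max_right _ _).trans (hy i)
  have htt : 0 < tt (K := K) y := tt_pos y
  refine (h2 hodd hn I b hb κ i₀ δ hδ y Pr).trans ?_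
  have e1 : ({M ∈ SY κ i₀ (cf I) y | ∃ x ∈ M, x ≠ 0 ∧ QY y x ≤ δ ^ 2}.ncard : ℝ) ≤
      C * ((1 + r) * δ) * tt (K := K) y := by
    refine ((hT y).2 δ hδ).trans ?_
    refine mul_le_mul_of_nonneg_right (mul_le_mul_of_nonneg_left ?_ hC.le) htt.le
    refine t1_bound hδ.le (by nlinarith) fun j _ => ?_
    have : Real.exp (-(y j)) ≤ 1 := by
      rw [Real.exp_neg]
      exact inv_le_one_of_one_le₀ (hy1 j)
    nlinarith
  have e2 : ({z : Ix K ⊕ Ix K → ℤ | scl y z ∈ Dc b κ i₀ δ \ Dm b κ i₀ δ}.ncard : ℝ) ≤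
      η / 4 * tt (K := K) y := by
    have e3 := hfew (fun k : Ix K ⊕ Ix K => Real.exp (y (cm k))) (fun k => hyL _)
    rw [prod_exp] at e3
    refine le_trans ?_ e3
    refine Nat.cast_le.2 (Set.ncard_le_ncard ?_ ?_)
    · intro z hz
      exact ⟨subset_closure hz.1, hz.2⟩
    · exact fin_pts hbd' fun k => Real.exp_pos _
  have e4 : 2 * (C * ((1 + r) * δ) * tt (K := K) y) ≤ η / 2 * tt (K := K) y := by
    calc 2 * (C * ((1 + r) * δ) * tt (K := K) y) = 2 * (C * ((1 + r) * δ)) * tt (K := K) y := by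
          ring
      _ ≤ _ := mul_le_mul_of_nonneg_right hδ4 htt.le
  linarith

theorem ysc_ge {j : s} {y : s → ℝ} {L : ℝ} (hj : y j ≤ 0)
    (hy : ∀ i, i ≠ j → L ≤ Real.exp (y i + y j)) (k : Jx K j) : L ≤ ysc j y k := by
  have h1 := hy (cm k.1) k.2
  unfold ysc
  rcases hk : k.1 with a | a
  · rw [hk] at h1
    exact h1
  · rw [hk] at h1
    refine h1.trans (Real.exp_le_exp.2 ?_)
    simp only [Sum.elim_inr]
    linarith

theorem final_ar {q t η C A B N D u v : ℝ} (hη : 0 < η) (hq : 0 < q) (ht : 0 < t)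
    (eA : A ≤ u * t)
    (eB : B ≤ v * t) (hu : 2 * u ≤ η / 8) (hv : 2 * v ≤ η / 8) (eN : N ≤ C * t)
    (hqC : 8 * C ≤ q * η) (eD : D ≤ η / 4 * (q * t)) :
    2 * q * (A + B) + 2 * N + D ≤ η * q * t := by
  have hqt : 0 < q * t := by positivity
  have f1 : 2 * q * (A + B) ≤ 2 * q * (u * t + v * t) :=
    mul_le_mul_of_nonneg_left (add_le_add eA eB) (by positivity)
  have f2 : 2 * q * (u * t + v * t) = (2 * u + 2 * v) * (q * t) := by ring
  have f3 : (2 * u + 2 * v) * (q * t) ≤ (η / 8 + η / 8) * (q * t) :=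
    mul_le_mul_of_nonneg_right (by linarith) hqt.le
  have f4 : 8 * C * t ≤ q * η * t := mul_le_mul_of_nonneg_right hqC ht.le
  have f5 : 0 < η * (q * t) := by positivity
  have f6 : η * q * t = η * (q * t) := by ring
  have f7 : q * η * t = η * (q * t) := by ring
  rw [f6]
  rw [f7] at f4
  linarith

theorem rjm (h1 : S_T1 K) (h2 : S_RBJ K) (h3 : S_GEJ K) (h4 : S_OPJ K) (h5 : S_SCJ K)
    (h6 : S_LPC) : S_RJM K := by
  intro hodd hn I b hb κ i₀ j hj hnull η hη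
  obtain ⟨C, hC, hT⟩ := h1 hodd hn κ i₀ I
  obtain ⟨C', hC', hG⟩ := h3 hodd hn I b hb κ i₀ j hj
  set r : ℝ := (Fintype.card s : ℝ) with hr
  have hr0 : 0 ≤ r := Nat.cast_nonneg _
  set δ : ℝ := min 1 (η / (16 * C * (1 + r))) with hδd
  have hδ : 0 < δ := by positivity
  have hδ2 : δ ≤ 1 := min_le_left _ _
  have hδ3 : δ ≤ η / (16 * C * (1 + r)) := min_le_right _ _
  have hδ4 : 2 * (C * ((1 + r) * δ)) ≤ η / 8 := by
    rw [le_div_iff₀ (by positivity)] at hδ3
    linarith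
  -- the bound for the primes
  set W : ℝ := C' + Real.sqrt C' with hW
  have hW0 : 0 < W := by positivity
  set P₁ : ℕ := ⌈16 * C * (1 + r) * W / η⌉₊ + 1 with hP₁
  have hP1 : (1 : ℝ) ≤ P₁ := by
    have : 1 ≤ P₁ := by omega
    exact_mod_cast this
  have hP2 : 16 * C * (1 + r) * W / η ≤ P₁ := by
    rw [hP₁]; push_cast
    linarith [Nat.le_ceil (16 * C * (1 + r) * W / η)]
  have hP0 : (0 : ℝ) < P₁ := by linarith
  have hP4 : 2 * (C * ((1 + r) * (W / P₁))) ≤ η / 8 := by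
    rw [div_le_iff₀ hη] at hP2
    have : 2 * (C * ((1 + r) * (W / P₁))) = (16 * C * (1 + r) * W) / P₁ / 8 := by
      field_simp
      norm_num
    rw [this]
    have h7 : (16 * C * (1 + r) * W) / P₁ ≤ η := by
      rw [div_le_iff₀ hP0]
      linarith
    linarith
  obtain ⟨hop, hbd⟩ := h4 hodd hn b κ i₀ j hj δ hδ
  have hcl : IsClosed (closure (Dcj b κ i₀ j δ) \ Dmj b κ i₀ j δ) := isClosed_closure.sdiff hop
  have hbd' : Bornology.IsBounded (closure (Dcj b κ i₀ j δ) \ Dmj b κ i₀ j δ) :=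
    hbd.closure.subset Set.sdiff_subset
  obtain ⟨L, hL, hfew⟩ := few_pts h6 hbd' hcl (hnull δ hδ) (by positivity : 0 < η / 4)
  obtain ⟨-, -, hprod, -⟩ := h5 hodd hn b j hj
  refine ⟨δ, P₁, max 1 (max L (8 * C / η)), hδ, by positivity, fun y hyj hy Pr hPr => ?_⟩
  have hyj1 : 1 ≤ Real.exp (-(y j)) := (le_max_left _ _).trans hyj
  have hyj2 : 8 * C / η ≤ Real.exp (-(y j)) :=
    (le_max_right _ _).trans ((le_max_right _ _).trans hyj)
  have hy1 : ∀ i, i ≠ j → 1 ≤ Real.exp (y i + y j) := fun i hi =>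
    (le_max_left _ _).trans (hy i hi)
  have hyL : ∀ i, i ≠ j → L ≤ Real.exp (y i + y j) := fun i hi =>
    (le_max_left _ _).trans ((le_max_right _ _).trans (hy i hi))
  have hyj0 : y j ≤ 0 := by
    have := Real.one_le_exp_iff.1 hyj1
    linarith
  have hyi0 : ∀ i, i ≠ j → 0 ≤ y i + y j := fun i hi => Real.one_le_exp_iff.1 (hy1 i hi)
  have htt : 0 < tt (K := K) y := tt_pos y
  set q : ℝ := Real.exp (-(2 * y j)) with hq
  have hq0 : 0 < q := Real.exp_pos _
  have hqq : q = Real.exp (-(y j)) ^ 2 := by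
    rw [hq, ← Real.exp_nat_mul]
    congr 1
    push_cast
    ring
  have hqC : 8 * C / η ≤ q := by
    rw [hqq]
    nlinarith
  -- the small vectors
  have hsmall : ∀ ρ d : ℝ, 0 < ρ → 0 ≤ d → ρ ^ 2 ≤ d → ρ ≤ d →
      ((({M ∈ SY κ i₀ (cf I) y | ∃ x ∈ M, x ≠ 0 ∧ QY y x ≤ ρ ^ 2 * Real.exp (2 * y j)}).ncard : ℕ)
        : ℝ) ≤ C * ((1 + r) * d) * tt (K := K) y := by
    intro ρ d hρ hd hd1 hd2
    have e1 : ρ ^ 2 * Real.exp (2 * y j) = (ρ * Real.exp (y j)) ^ 2 := by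
      rw [mul_pow, ← Real.exp_nat_mul]
      push_cast
      rfl
    rw [e1]
    refine ((hT y).2 (ρ * Real.exp (y j)) (by positivity)).trans ?_
    refine mul_le_mul_of_nonneg_right (mul_le_mul_of_nonneg_left ?_ hC.le) htt.le
    have e2 : Real.exp (y j) ≤ 1 := Real.exp_le_one_iff.2 hyj0
    refine t1_bound hd ?_ fun i _ => ?_
    · rw [mul_pow]
      have : Real.exp (y j) ^ 2 ≤ 1 := pow_le_one₀ (Real.exp_pos _).le e2
      nlinarith [sq_nonneg ρ]
    · rw [mul_assoc, ← Real.exp_add]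
      have e3 : Real.exp (y j + -y i) ≤ 1 := by
        rw [Real.exp_le_one_iff]
        by_cases hi : i = j
        · rw [hi]; linarith
        · linarith [hyi0 i hi]
      nlinarith
  have eA := hsmall δ δ hδ hδ.le (by nlinarith) le_rfl
  have hfin : (SY κ i₀ (cf I) y).Finite := (hT y).1.1
  have hcard : ((SY κ i₀ (cf I) y).ncard : ℝ) ≤ C * tt (K := K) y := (hT y).1.2
  have eB : ({M ∈ SY κ i₀ (cf I) y | Pr M ∧ ∀ x ∈ M, ∀ l : Fin (finrank ℚ (K j)),
        x j ≠ b j l}.ncard : ℝ) ≤ C * ((1 + r) * (W / P₁)) * tt (K := K) y := by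
    have e5 : 0 < Real.sqrt C' := Real.sqrt_pos.2 hC'
    have e6 := hsmall (Real.sqrt C' / P₁) (W / P₁) (by positivity) (by positivity) (by
      rw [div_pow, Real.sq_sqrt hC'.le, div_le_div_iff₀ (by positivity) hP0]
      have h7 : C' ≤ W := by rw [hW]; linarith
      calc C' * (P₁ : ℝ) ≤ W * P₁ := by nlinarith
        _ ≤ W * (P₁ : ℝ) ^ 2 := by
          refine mul_le_mul_of_nonneg_left ?_ hW0.le
          nlinarith) (by
      refine div_le_div_of_nonneg_right ?_ hP0.le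
      rw [hW]; linarith)
    refine le_trans (Nat.cast_le.2 (Set.ncard_le_ncard ?_ ?_)) e6
    · rintro M ⟨hM, hM1, hM2⟩
      obtain ⟨x, hx, hx0, hxQ⟩ := hG y P₁ hP1 M hM (fun p hp hpP =>
        hPr M hM1 p hp (by exact_mod_cast hpP)) hM2
      refine ⟨hM, x, hx, hx0, hxQ.trans (le_of_eq ?_)⟩
      rw [div_pow, Real.sq_sqrt hC'.le]
      ring
    · exact hfin.subset fun M hM => hM.1
  have eD : ({z : Jx K j → ℤ | scj j y z ∈ Dcj b κ i₀ j δ \ Dmj b κ i₀ j δ}.ncard : ℝ) ≤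
      η / 4 * (q * tt (K := K) y) := by
    have e3 := hfew (fun k : Jx K j => ysc j y k) (fun k => ysc_ge hyj0 hyL k)
    rw [hprod] at e3
    refine le_trans ?_ e3
    refine Nat.cast_le.2 (Set.ncard_le_ncard ?_ ?_)
    · intro z hz
      exact ⟨subset_closure hz.1, hz.2⟩
    · exact fin_pts hbd' fun k => Real.exp_pos _
  refine (h2 hodd hn I b hb κ i₀ j hj δ hδ y hyj0 Pr).trans ?_
  rw [← hq]
  rw [div_le_iff₀ hη] at hqC
  exact final_ar hη hq0 htt eA eB hδ4 hP4 hcard hqC eD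

end

end Pool.Agent.Y849.KE
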